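import Pool.Agent.Results.MP_2a5a28_nt.ExceptionalSet

/-!
# The heights of the exceptional triples in the abc conjecture over the integers of `ℚ(√5)`

The number of the heights of exceptional triples, from the starting theorem `ExceptionalSet` (the proof of `count` is that of
the starting file `WindowsWithoutExceptions`, repeated here to keep the closure small).
-/

set_option autoImplicit false

namespace Pool.Agent.T9h59.GA

open NumberField IsDedekindDomain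
open Pool.Agent.Results.MP_2a5a28_nt
open ExceptionalSet (Triple height rad)

variable {K : Type} [Field K] [NumberField K]

lemma prod_unit (u : (𝓞 K)ˣ) : ∏ φ : K →+* ℂ, ‖φ (((u : 𝓞 K)) : K)‖ = 1 := by
  have h1 : ∏ φ : K →+* ℂ, ‖φ ((u : 𝓞 K) : K)‖ = ∏ σ : K →ₐ[ℚ] ℂ, ‖σ ((u : 𝓞 K) : K)‖ :=
    Fintype.prod_equiv (RingHom.equivRatAlgHom K ℂ) _ _ (fun φ => rfl)
  rw [h1, ← norm_prod, ← Algebra.norm_eq_prod_embeddings]
  have h2 : |(RingOfIntegers.norm ℚ (u : 𝓞 K) : ℚ)| = 1 := NumberField.isUnit_iff_norm.1 u.isUnit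
  rw [RingOfIntegers.coe_norm] at h2
  have h3 : ‖(algebraMap ℚ ℂ) ((Algebra.norm ℚ) ((u : 𝓞 K) : K))‖ =
      ((|(Algebra.norm ℚ) ((u : 𝓞 K) : K)| : ℚ) : ℝ) := by
    rw [eq_ratCast, Complex.norm_ratCast]
    push_cast
    rfl
  rw [h3, h2]
  norm_num

lemma height_unit (u : (𝓞 K)ˣ) (t : 𝓞 K × 𝓞 K × 𝓞 K) :
    height ((u : 𝓞 K) * t.1, (u : 𝓞 K) * t.2.1, (u : 𝓞 K) * t.2.2) = height t := by
  have h : ∀ φ : K →+* ℂ, max ‖φ (((u : 𝓞 K) * t.1 : 𝓞 K) : K)‖
      (max ‖φ (((u : 𝓞 K) * t.2.1 : 𝓞 K) : K)‖ ‖φ (((u : 𝓞 K) * t.2.2 : 𝓞 K) : K)‖) =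
      ‖φ ((u : 𝓞 K) : K)‖ * max ‖φ t.1‖ (max ‖φ t.2.1‖ ‖φ t.2.2‖) := by
    intro φ
    simp only [map_mul, norm_mul]
    rw [mul_max_of_nonneg _ _ (norm_nonneg _), mul_max_of_nonneg _ _ (norm_nonneg _)]
  unfold height
  rw [Finset.prod_congr rfl (fun φ _ => h φ), Finset.prod_mul_distrib, prod_unit, one_mul]

/-- the heights of the exceptional triples -/
def Exc (K : Type) [Field K] [NumberField K] (κ : ℝ) : Set ℝ :=
  {x : ℝ | ∃ t : 𝓞 K × 𝓞 K × 𝓞 K, Triple t ∧ height t = x ∧ rad t ≤ κ * height t}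

lemma count (hd : Module.finrank ℚ K = 2) (h5 : ∃ s : K, s ^ 2 = 5) (κ ε : ℝ) (hε : 0 < ε) :
    ∃ C : ℝ, ∀ X : ℝ, 1 ≤ X → {x | x ∈ Exc K κ ∧ x ≤ X}.Finite ∧
      ({x | x ∈ Exc K κ ∧ x ≤ X}.ncard : ℝ) ≤ C * X ^ (20 / 37 + ε) := by
  classical
  obtain ⟨C, hC⟩ := ExceptionalSet.result K hd h5 κ ε hε
  refine ⟨C, fun X hX => ?_⟩
  have key : ∀ F : Finset ℝ, (F : Set ℝ) ⊆ {x | x ∈ Exc K κ ∧ x ≤ X} → (F.card : ℝ) ≤ C * X ^ (20 / 37 + ε) := by
    intro F hF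
    have hch : ∀ x : ℝ, ∃ t : 𝓞 K × 𝓞 K × 𝓞 K, x ∈ F → (Triple t ∧ height t = x ∧ rad t ≤ κ * height t) := by
      intro x
      by_cases hx : x ∈ F
      · obtain ⟨t, ht⟩ := (hF hx).1
        exact ⟨t, fun _ => ht⟩
      · exact ⟨0, fun h => absurd h hx⟩
    choose g hg using hch
    have hinj : Set.InjOn g (F : Set ℝ) := by
      intro x hx y hy hxy
      have h1 := (hg x hx).2.1
      have h2 := (hg y hy).2.1
      rw [← h1, ← h2, hxy]
    have hcard : (F.image g).card = F.card := Finset.card_image_of_injOn hinj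
    rw [← hcard]
    apply hC X hX
    · intro t ht
      obtain ⟨x, hx, rfl⟩ := Finset.mem_image.1 ht
      obtain ⟨h1, h2, h3⟩ := hg x hx
      exact ⟨h1, by rw [h2]; exact (hF hx).2, h3⟩
    · intro t ht s hs u hu
      obtain ⟨x, hx, rfl⟩ := Finset.mem_image.1 ht
      obtain ⟨y, hy, rfl⟩ := Finset.mem_image.1 hs
      have h1 := (hg x hx).2.1
      have h2 := (hg y hy).2.1
      have h3 : y = x := by
        rw [← h1, ← h2, hu]
        exact height_unit u (g x)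
      rw [h3]
  have hfin : {x | x ∈ Exc K κ ∧ x ≤ X}.Finite := by
    by_contra hinf
    obtain ⟨F, hF, hF2⟩ := (show {x | x ∈ Exc K κ ∧ x ≤ X}.Infinite from hinf).exists_subset_card_eq
      (⌊C * X ^ (20 / 37 + ε)⌋₊ + 1)
    have h1 := key F hF
    rw [hF2] at h1
    push_cast at h1
    exact absurd h1 (not_le.2 (Nat.lt_floor_add_one _))
  refine ⟨hfin, ?_⟩
  rw [Set.ncard_eq_toFinset_card _ hfin]
  exact key _ (by simp)

theorem height_nonneg (t : 𝓞 K × 𝓞 K × 𝓞 K) : 0 ≤ height t := by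
  unfold height
  exact Finset.prod_nonneg (fun φ _ => (norm_nonneg _).trans (le_max_left _ _))

/-- a triple whose height is not the height of an exceptional triple is not exceptional -/
theorem good_of {κ : ℝ} {t : 𝓞 K × 𝓞 K × 𝓞 K} (ht : Triple t) (h : height t ∉ Exc K κ) : κ * height t < rad t := by
  by_contra hcon
  rw [not_lt] at hcon
  exact h ⟨t, ht, rfl, hcon⟩

end Pool.Agent.T9h59.GA
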